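import Pool.Agent.H622R3.SP.Good
import Pool.Agent.H622R3.SP.Mult
import Pool.Agent.H622R3.SP.Metric

set_option autoImplicit false

/-!
# The right number of primes in ALL intervals `(x - H, x)`, `K log x ≤ H ≤ x`, at multiples and at powers

Let `0 < δ < 1`. There are `K, lam, c > 0` such that the property

  `(1 - δ) H / log x ≤ #{primes in (x - H, x)} ≤ lam H / log x` simultaneously for ALL `H` with `K log x ≤ H ≤ x`

holds

* at a positive proportion of the multiples `x = k y`, `k ≤ Y ^ θ`, for every `0 < θ < 1`, every large `Y` and all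
  `y ∈ [Y, 2 Y]` outside a set of measure at most `Y ^ (1 - κ)`, `κ = κ(θ, δ) > 0`;
* for every sequence `b 1, b 2, ... → ∞` of real numbers and almost every `α > 1`, at a set of upper density at least
  `c` of the numbers `x = α ^ (b n)`.
-/

namespace Pool.Agent.Results.MP_31d0eb_nt.AllScalesAtMultiplesAndPowers

open Filter MeasureTheory

/-- the number of primes in the open interval `(x - H, x)` -/
noncomputable def primesBelow (x H : ℝ) : ℕ := {p : ℕ | p.Prime ∧ x - H < p ∧ (p : ℝ) < x}.ncard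

/-- For EVERY `H` between `K log x` and `x` the interval `(x - H, x)` contains at least `(1 - δ) H / log x` and at most
`lam H / log x` primes. -/
def RightAtAllScales (δ K lam x : ℝ) : Prop :=
  ∀ H : ℝ, K * Real.log x ≤ H → H ≤ x →
    (1 - δ) * H / Real.log x ≤ primesBelow x H ∧ (primesBelow x H : ℝ) ≤ lam * H / Real.log x

open Classical in
theorem result (δ : ℝ) (hδ : 0 < δ) (hδ1 : δ < 1) :
    ∃ K lam c : ℝ, 0 < K ∧ 0 < lam ∧ 0 < c ∧
      -- multiples of real numbers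
      (∀ θ : ℝ, 0 < θ → θ < 1 → ∃ c' κ Y₀ : ℝ, 0 < c' ∧ 0 < κ ∧ ∀ Y : ℝ, Y₀ ≤ Y →
        ∃ E : Set ℝ, MeasurableSet E ∧ volume E ≤ ENNReal.ofReal (Y ^ (1 - κ)) ∧
          ∀ y : ℝ, Y ≤ y → y ≤ 2 * Y → y ∉ E →
            c' * Y ^ θ ≤ ({k : ℕ | (k : ℝ) ≤ Y ^ θ ∧ 1 ≤ k ∧ RightAtAllScales δ K lam (k * y)}.ncard : ℝ)) ∧
      -- powers of real numbers
      (∀ b : ℕ → ℝ, Tendsto b atTop atTop → ∀ᵐ α : ℝ, 1 < α → ∃ᶠ N : ℕ in atTop,
        c * N ≤ (((Finset.range N).filter (fun n => RightAtAllScales δ K lam (α ^ b n))).card : ℝ)) := by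
  obtain ⟨K, lam, c, hK, hlam, hc, hev⟩ := Pool.Agent.H622R3.SP.back_all_scales δ hδ hδ1
  set S : Set ℕ := {m : ℕ | ∀ x : ℝ, (m : ℝ) < x → x < m + 1 → Pool.Agent.H622R3.SP.AS δ K lam x} with hS
  have hev' : ∀ᶠ N : ℕ in atTop, c * N ≤ (((Finset.range N).filter (fun m => m ∈ S)).card : ℝ) := by
    filter_upwards [hev] with N hN
    refine hN.trans (le_of_eq ?_)
    congr 2
  refine ⟨K, lam, c / 2, hK, hlam, by positivity, ?_, ?_⟩
  · intro θ hθ hθ1
    obtain ⟨c', κ, hc', hκ, Y₀, h⟩ := Pool.Agent.H622R3.SP.mult S c hc hev' θ hθ hθ1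
    refine ⟨c', κ, Y₀, hc', hκ, fun Y hY => ?_⟩
    obtain ⟨E, hE1, hE2, hE3⟩ := h Y hY
    refine ⟨E, hE1, hE2, fun y h1 h2 h3 => (hE3 y h1 h2 h3).trans ?_⟩
    have hfin : {k : ℕ | (k : ℝ) ≤ Y ^ θ ∧ 1 ≤ k ∧ RightAtAllScales δ K lam (k * y)}.Finite := by
      refine (Set.finite_Iic ⌊Y ^ θ⌋₊).subset fun k hk => ?_
      exact Nat.le_floor hk.1
    refine Nat.cast_le.2 (Set.ncard_le_ncard (fun k hk => ?_) hfin)
    obtain ⟨hk1, m, hm, hm1, hm2⟩ := hk
    refine ⟨hk1, ?_, hm _ hm1 hm2⟩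
    rcases Nat.eq_zero_or_pos k with h0 | h0
    · exfalso
      rw [h0, Nat.cast_zero, zero_mul] at hm1
      exact absurd hm1 (not_lt.2 (Nat.cast_nonneg m))
    · exact h0
  · intro b hb
    filter_upwards [Pool.Agent.H622R3.SP.metric S c hc hev' b hb] with α hα hα1
    refine (hα hα1).mono fun N hN => hN.trans ?_
    refine Nat.cast_le.2 (Finset.card_le_card fun n hn => ?_)
    rw [Finset.mem_filter] at hn ⊢
    obtain ⟨hn1, m, hm, hm1, hm2⟩ := hn
    exact ⟨hn1, hm _ hm1 hm2⟩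

end Pool.Agent.Results.MP_31d0eb_nt.AllScalesAtMultiplesAndPowers
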