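import Pool.Agent.TH886.PrimeScales

/-!
# Around almost all primes all but boundedly many scales are regular, in every interval of
# length `x ^ θ`

For a prime `p` and a dyadic scale `D = 2 ^ j ≥ log p` we ask whether the primes have a constant
density `λ / log p`, `c₁ ≤ λ ≤ c₂`, on `[p - D, p + D]` up to the error `δ D / log p`, for all
subintervals simultaneously; otherwise `D` is a bad scale at `p`. For every `θ > 0` and `η > 0` there
are `0 < c₁` and `c₂` such that for every `δ > 0` there is a `K` with the following property: in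
EVERY interval `(X, X + Y]` with `X ^ θ ≤ Y ≤ X`, `X` large, all but at most `η Y / log X` of the
primes have at most `K` bad scales below `Y`.
-/

set_option autoImplicit false

namespace Pool.Agent.Results.MP_31d0eb_nt.FewBadScalesAroundPrimes

open Finset Filter

/-- Up to `δ` the primes have a constant density `lam / log n` with `c₁ ≤ lam ≤ c₂` on
`[n - D, n + D]`: for all `n - D ≤ u ≤ v ≤ n + D` the number of primes in `(u, v]` is
`lam (v - u) / log n` up to an error of at most `δ D / log n`. -/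
def ConstantDensity (c₁ c₂ δ : ℝ) (n D : ℕ) : Prop :=
  ∃ lam : ℝ, c₁ ≤ lam ∧ lam ≤ c₂ ∧ ∀ u v : ℕ, n ≤ u + D → u ≤ v → v ≤ n + D →
    |(((Finset.Ioc u v).filter Nat.Prime).card : ℝ) - lam * ((v : ℝ) - u) / Real.log n| ≤
      δ * D / Real.log n

open Classical in
/-- The number of `j` with `log n ≤ 2 ^ j ≤ Y` for which the primes do not have a constant density
on `[n - 2 ^ j, n + 2 ^ j]`. -/
noncomputable def badScales (c₁ c₂ δ : ℝ) (Y n : ℕ) : ℕ :=
  ((Finset.range (Nat.log 2 Y + 1)).filter (fun j => Real.log n ≤ (2 : ℝ) ^ j ∧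
    ¬ ConstantDensity c₁ c₂ δ n (2 ^ j))).card

/-- **Around almost all primes all but boundedly many scales are regular.** -/
theorem result (θ : ℝ) (h0 : 0 < θ) (h1 : θ ≤ 1) (η : ℝ) (hη : 0 < η) :
    ∃ c₁ c₂ : ℝ, 0 < c₁ ∧ ∀ δ : ℝ, 0 < δ → ∃ K : ℕ,
      ∀ᶠ X : ℕ in atTop, ∀ Y : ℕ, (X : ℝ) ^ θ ≤ Y → Y ≤ X →
        (((Finset.Ioc X (X + Y)).filter (fun p => p.Prime ∧ K < badScales c₁ c₂ δ Y p)).card : ℝ) ≤
          η * Y / Real.log X :=
  Pool.Agent.TH886.PS.main θ h0 h1 η hη

end Pool.Agent.Results.MP_31d0eb_nt.FewBadScalesAroundPrimes
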