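import Mathlib
import Pool.Agent.H127.Fluct
import Pool.Agent.H127.Alt

/-!
# The local density of the primes around primes fluctuates rarely, in every interval

`density x H = π(x, H) log x / H`, where `π(x, H)` is the number of primes in `(x, x + H]`. As `H` grows
from `K log X` to `Z` the density of the primes after a prime `p` may become small, then large, then
small again, and so on. Let `(X, X + Y]` be ANY interval, `Y + Z ≤ X`.

(1) Let `0 < a < b`. The number of the primes `p` in `(X, X + Y]` after which the density is `k + 1`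
times at most `a` and in between `k` times at least `b` is at most `(a / b + δ) ^ k` times the number of
primes in `(X, X + Y + Z]` and also at most `(a / b + δ) ^ k (a + δ) (Y + Z) / log X`. The dual statement
holds for the real numbers `x` of the interval.

(2) Let `0 < η ≤ M`. The number of the primes in `(X, X + Y]` after which the density makes
`(2 m + 1) ⌊2 M / η⌋` jumps of size at least `η` below the height `M` decays exponentially in `m`.

There is no condition on the length of the interval, and the bounds are uniform in `k` and `m`. The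
proof follows the lines of the starting result `FluctuationBound` (zigzags along the staircase); for
the primes one starts from the points of the vertical segments of the staircase.
-/

set_option autoImplicit false

open MeasureTheory Set Filter Topology

namespace Pool.Agent.Results.MP_31d0eb_nt.FluctuationsAroundPrimes

/-- the number of primes `≤ x` -/
noncomputable def primesUpTo (x : ℝ) : ℝ := (Nat.primeCounting ⌊x⌋₊ : ℝ)

/-- the density `π(x, H) log x / H` of the primes in `(x, x + H]` relative to `1 / log x` -/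
noncomputable def density (x H : ℝ) : ℝ :=
  (primesUpTo (x + H) - primesUpTo x) * Real.log x / H

/-- there are lengths `D ≤ H 0 < H 1 < … < H (2 k) ≤ Z` such that the density of the primes in
`(x, x + H i]` is at most `a` for even `i` and at least `b` for odd `i` -/
def LowHigh (a b D Z : ℝ) (k : ℕ) (x : ℝ) : Prop :=
  ∃ H : ℕ → ℝ, D ≤ H 0 ∧ (∀ i < 2 * k, H i < H (i + 1)) ∧ H (2 * k) ≤ Z ∧
    (∀ i ≤ k, density x (H (2 * i)) ≤ a) ∧ ∀ i < k, b ≤ density x (H (2 * i + 1))

/-- there are lengths `0 < H 0 < H 1 < … < H (2 k) ≤ Z` such that the density of the primes in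
`(x, x + H i]` is at least `b` for even `i` and at most `a` for odd `i` -/
def HighLow (a b Z : ℝ) (k : ℕ) (x : ℝ) : Prop :=
  ∃ H : ℕ → ℝ, 0 < H 0 ∧ (∀ i < 2 * k, H i < H (i + 1)) ∧ H (2 * k) ≤ Z ∧
    (∀ i ≤ k, b ≤ density x (H (2 * i))) ∧ ∀ i < k, density x (H (2 * i + 1)) ≤ a

/-- there are lengths `D ≤ H 0 < H 1 < … < H k ≤ Z` such that the densities of the primes in
`(x, x + H i]` are at most `M` and consecutive ones differ by at least `η` -/
def Jumps (η M D Z : ℝ) (k : ℕ) (x : ℝ) : Prop :=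
  ∃ H : ℕ → ℝ, D ≤ H 0 ∧ (∀ i < k, H i < H (i + 1)) ∧ H k ≤ Z ∧
    (∀ i ≤ k, density x (H i) ≤ M) ∧ ∀ i < k, η ≤ |density x (H (i + 1)) - density x (H i)|

open Pool.Agent.TH110.Zig Pool.Agent.H127.Fluct

theorem chain {H : ℕ → ℝ} {n : ℕ} (h : ∀ i < n, H i < H (i + 1)) : ∀ i ≤ n, H 0 ≤ H i := by
  intro i
  induction i with
  | zero => intro _; exact le_rfl
  | succ i ih => intro hi; exact (ih (by omega)).trans (h i (by omega)).le

theorem cr_eq (x : ℝ) : cr qp x = primesUpTo x := by rw [cr_qp]; rfl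

theorem qp_count {p : ℕ} (hp : p.Prime) : qp (Nat.count Nat.Prime p) = p := by
  unfold qp
  rw [Nat.nth_count hp]

theorem primesUpTo_prime {p : ℕ} (hp : p.Prime) :
    primesUpTo p = (Nat.count Nat.Prime p : ℝ) + 1 := by
  rw [← cr_eq, ← qp_count hp, cr, pts_qp.cnt_q]
  push_cast
  rfl

theorem primesUpTo_mono {x y : ℝ} (h : x ≤ y) : primesUpTo x ≤ primesUpTo y := by
  rw [← cr_eq, ← cr_eq]; exact pts_qp.cr_mono h

theorem lowAt {a b ε X Y Z : ℝ} (hε : 0 < ε) (hX : 1 < X)
    (hlog : ∀ x : ℝ, X ≤ x → x ≤ 2 * X → Real.log x ≤ (1 + ε) * Real.log X)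
    (hZ : 0 ≤ Z) (hYZ : Y + Z ≤ X) {k p : ℕ} (hp : p.Prime) (h1 : X < p)
    (h2 : (p : ℝ) ≤ X + Y) (h : LowHigh a b (1 / ε * Real.log X) Z k p) :
    LowAt qp ((a + ε) / Real.log X) (b / (1 + ε) / Real.log X) (X + Y + Z) k
      (Nat.count Nat.Prime p) := by
  obtain ⟨H, h3, h4, h5, h6, h7⟩ := h
  have hl : 0 < Real.log X := Real.log_pos hX
  have hD : 0 < 1 / ε * Real.log X := by positivity
  have hH : ∀ i ≤ 2 * k, 1 / ε * Real.log X ≤ H i := fun i hi => h3.trans (chain h4 i hi)
  have hpX : (p : ℝ) ≤ 2 * X := by linarith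
  have hlp1 : Real.log X ≤ Real.log p := Real.log_le_log (by linarith) h1.le
  have hlp2 := hlog p h1.le hpX
  have hlp : 0 < Real.log p := hl.trans_le hlp1
  have hc := primesUpTo_prime hp
  refine ⟨fun i => p + H i, ?_, ?_, ?_, ?_, ?_⟩
  · rw [qp_count hp]
    have := hH 0 (Nat.zero_le _)
    linarith
  · intro j hj
    have := h4 j hj
    linarith
  · change (p : ℝ) + H (2 * k) ≤ _
    linarith
  · intro j hj
    change (Nat.count Nat.Prime p : ℝ) + 1 + b / (1 + ε) / Real.log X *
      ((p : ℝ) + H (2 * j + 1) - qp (Nat.count Nat.Prime p)) ≤ cr qp (p + H (2 * j + 1))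
    rw [qp_count hp, cr_eq, ← hc, add_sub_cancel_left]
    have h8 := h7 j hj
    have h9 : 0 < H (2 * j + 1) := hD.trans_le (hH _ (by omega))
    unfold density at h8
    rw [le_div_iff₀ h9] at h8
    have h10 : 0 ≤ primesUpTo (p + H (2 * j + 1)) - primesUpTo p := by
      have := primesUpTo_mono (show (p : ℝ) ≤ p + H (2 * j + 1) by linarith)
      linarith
    have h11 : b * H (2 * j + 1) ≤ (primesUpTo (p + H (2 * j + 1)) - primesUpTo p) *
        ((1 + ε) * Real.log X) := h8.trans (mul_le_mul_of_nonneg_left hlp2 h10)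
    have h12 : b / (1 + ε) / Real.log X * H (2 * j + 1) ≤
        primesUpTo (p + H (2 * j + 1)) - primesUpTo p := by
      rw [div_div, div_mul_eq_mul_div, div_le_iff₀ (by positivity)]
      exact h11
    linarith
  · intro j hj
    change cr qp (p + H (2 * j)) ≤ (Nat.count Nat.Prime p : ℝ) + (a + ε) / Real.log X *
      ((p : ℝ) + H (2 * j) - qp (Nat.count Nat.Prime p))
    rw [qp_count hp, cr_eq, add_sub_cancel_left]
    have h8 := h6 j hj
    have h13 := hH (2 * j) (by omega)
    have h9 : 0 < H (2 * j) := hD.trans_le h13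
    unfold density at h8
    rw [div_le_iff₀ h9] at h8
    have h10 : 0 ≤ primesUpTo (p + H (2 * j)) - primesUpTo p := by
      have := primesUpTo_mono (show (p : ℝ) ≤ p + H (2 * j) by linarith)
      linarith
    have h11 : (primesUpTo (p + H (2 * j)) - primesUpTo p) * Real.log X ≤ a * H (2 * j) :=
      (mul_le_mul_of_nonneg_left hlp1 h10).trans h8
    have h12 : Real.log X ≤ ε * H (2 * j) := by
      rw [div_mul_eq_mul_div, one_mul, div_le_iff₀ hε] at h13
      linarith
    have h14 : (primesUpTo (p + H (2 * j)) - Nat.count Nat.Prime p) * Real.log X ≤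
        (a + ε) * H (2 * j) := by
      have e : primesUpTo (p + H (2 * j)) - Nat.count Nat.Prime p =
          (primesUpTo (p + H (2 * j)) - primesUpTo p) + 1 := by rw [hc]; ring
      rw [e, add_mul, one_mul, add_mul]
      linarith
    have h15 : primesUpTo (p + H (2 * j)) - Nat.count Nat.Prime p ≤
        (a + ε) / Real.log X * H (2 * j) := by
      rw [div_mul_eq_mul_div, le_div_iff₀ hl]
      exact h14
    linarith

theorem osc {a b ε X Y Z x : ℝ} (hε : 0 < ε) (hX : 1 < X)
    (hlog : ∀ x : ℝ, X ≤ x → x ≤ 2 * X → Real.log x ≤ (1 + ε) * Real.log X)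
    (hZ : 0 ≤ Z) (hYZ : Y + Z ≤ X) {k : ℕ} (h1 : X < x)
    (h2 : x ≤ X + Y) (h : HighLow a b Z k x) :
    OscF (cr qp) (a / Real.log X) (b / (1 + ε) / Real.log X) (X + Y + Z) k x := by
  obtain ⟨H, h3, h4, h5, h6, h7⟩ := h
  have hl : 0 < Real.log X := Real.log_pos hX
  have hH : ∀ i ≤ 2 * k, 0 < H i := fun i hi => h3.trans_le (chain h4 i hi)
  have hlp1 : Real.log X ≤ Real.log x := Real.log_le_log (by linarith) h1.le
  have hlp2 := hlog x h1.le (by linarith)
  have hlp : 0 < Real.log x := hl.trans_le hlp1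
  refine ⟨fun i => x + H i, ?_, ?_, ?_, ?_, ?_⟩
  · change x < x + H 0
    linarith
  · intro j hj
    have := h4 j hj
    linarith
  · change x + H (2 * k) ≤ _
    linarith
  · intro j hj
    change b / (1 + ε) / Real.log X * (x + H (2 * j) - x) ≤ cr qp (x + H (2 * j)) - cr qp x
    rw [cr_eq, cr_eq, add_sub_cancel_left]
    have h8 := h6 j hj
    have h9 : 0 < H (2 * j) := hH _ (by omega)
    unfold density at h8
    rw [le_div_iff₀ h9] at h8
    have h10 : 0 ≤ primesUpTo (x + H (2 * j)) - primesUpTo x := by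
      have := primesUpTo_mono (show x ≤ x + H (2 * j) by linarith)
      linarith
    rw [div_div, div_mul_eq_mul_div, div_le_iff₀ (by positivity)]
    exact h8.trans (mul_le_mul_of_nonneg_left hlp2 h10)
  · intro j hj
    change cr qp (x + H (2 * j + 1)) - cr qp x ≤ a / Real.log X * (x + H (2 * j + 1) - x)
    rw [cr_eq, cr_eq, add_sub_cancel_left]
    have h8 := h7 j hj
    have h9 : 0 < H (2 * j + 1) := hH _ (by omega)
    unfold density at h8
    rw [div_le_iff₀ h9] at h8
    have h10 : 0 ≤ primesUpTo (x + H (2 * j + 1)) - primesUpTo x := by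
      have := primesUpTo_mono (show x ≤ x + H (2 * j + 1) by linarith)
      linarith
    rw [div_mul_eq_mul_div, le_div_iff₀ hl]
    exact (mul_le_mul_of_nonneg_left hlp1 h10).trans h8

/-- For `0 < a < b` and `δ > 0` there is `K` such that for all large `X`, all `Y, Z ≥ 0` with `Y + Z ≤ X` and all `k`: the number of
the primes `p` in `(X, X + Y]` after which the density is `k + 1` times at most `a` and in between `k`
times at least `b`, at lengths between `K log X` and `Z`, is at most `(a / b + δ) ^ k` times the minimum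
of the number of primes in `(X, X + Y + Z]` and of `(a + δ) (Y + Z) / log X`; and the measure of the real
`x` in `(X, X + Y]` after which it is `k + 1` times at least `b` and in between `k` times at most `a`, at
lengths up to `Z`, is at most `(a / b + δ) ^ k` times the minimum of `Y + Z` and of `(1 + δ) / b` times
the number of primes in `(X, X + Y + Z]` times `log X`. -/
theorem crossings (a b δ : ℝ) (ha : 0 < a) (hab : a < b) (hδ : 0 < δ) :
    ∃ K : ℝ, 0 < K ∧ ∀ᶠ X : ℝ in atTop, ∀ Y Z : ℝ, 0 ≤ Y → 0 ≤ Z → Y + Z ≤ X → ∀ k : ℕ,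
      (({p : ℕ | p.Prime ∧ X < p ∧ (p : ℝ) ≤ X + Y ∧
          LowHigh a b (K * Real.log X) Z k p}.ncard : ℝ) ≤
        (a / b + δ) ^ k *
          min (primesUpTo (X + Y + Z) - primesUpTo X) ((a + δ) * (Y + Z) / Real.log X)) ∧
      volume.real {x : ℝ | X < x ∧ x ≤ X + Y ∧ HighLow a b Z k x} ≤
        (a / b + δ) ^ k *
          min (Y + Z)
            ((1 + δ) / b * ((primesUpTo (X + Y + Z) - primesUpTo X) * Real.log X)) := by
  have hb : 0 < b := ha.trans hab
  obtain ⟨ε, hε, hε1, hεδ, hε2, hε3⟩ : ∃ ε : ℝ, 0 < ε ∧ ε ≤ 1 ∧ ε ≤ δ ∧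
      (a + ε) * (1 + ε) ≤ b ∧ (a + ε) * (1 + ε) ≤ (a / b + δ) * b := by
    have ha2 : 0 < a + 2 := by linarith
    refine ⟨min (min 1 δ) (min ((b - a) / (a + 2)) (δ * b / (a + 2))), ?_, ?_, ?_, ?_, ?_⟩
    · have : 0 < b - a := by linarith
      positivity
    · exact (min_le_left _ _).trans (min_le_left _ _)
    · exact (min_le_left _ _).trans (min_le_right _ _)
    all_goals
      set e := min (min 1 δ) (min ((b - a) / (a + 2)) (δ * b / (a + 2))) with he
      have h0 : 0 < e := by
        have : 0 < b - a := by linarith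
        positivity
      have h1 : e ≤ 1 := (min_le_left _ _).trans (min_le_left _ _)
      have h2 : e ≤ (b - a) / (a + 2) := (min_le_right _ _).trans (min_le_left _ _)
      have h3 : e ≤ δ * b / (a + 2) := (min_le_right _ _).trans (min_le_right _ _)
      rw [le_div_iff₀ ha2] at h2 h3
      have h4 : (a + e) * (1 + e) ≤ a + e * (a + 2) := by nlinarith
    · linarith
    · have e1 : (a / b + δ) * b = a + δ * b := by field_simp
      rw [e1]; linarith
  set a' : ℝ := a + ε with ha'
  set b' : ℝ := b / (1 + ε) with hb'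
  have ha'0 : 0 < a' := by positivity
  have hb'0 : 0 < b' := by positivity
  have hab' : a' ≤ b' := by
    rw [hb', le_div_iff₀ (by positivity)]; exact hε2
  have hratio : a' / b' ≤ a / b + δ := by
    rw [div_le_iff₀ hb'0, hb', mul_div_assoc', le_div_iff₀ (by positivity)]; exact hε3
  have hratio' : a / b' ≤ a / b + δ :=
    (div_le_div_of_nonneg_right (by linarith) hb'0.le).trans hratio
  have hab'' : a ≤ b' := by linarith
  refine ⟨1 / ε, by positivity, ?_⟩
  filter_upwards [eventually_gt_atTop 1,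
    Real.tendsto_log_atTop.eventually_ge_atTop (Real.log 2 / ε)] with X hX hXl Y Z hY hZ hYZ k
  have hl : 0 < Real.log X := Real.log_pos hX
  have hX0 : 0 < X := by linarith
  have hlog : ∀ x : ℝ, X ≤ x → x ≤ 2 * X → Real.log x ≤ (1 + ε) * Real.log X := by
    intro x h1 h2
    have h3 : Real.log x ≤ Real.log (2 * X) := Real.log_le_log (by linarith) h2
    rw [Real.log_mul (by norm_num) hX0.ne'] at h3
    rw [div_le_iff₀ hε] at hXl
    linarith
  have hW : X ≤ X + Y + Z := by linarith
  have hN : 0 ≤ primesUpTo (X + Y + Z) - primesUpTo X := by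
    have := primesUpTo_mono hW
    linarith
  constructor
  · -- the primes
    set S : Set ℕ := {p : ℕ | p.Prime ∧ X < p ∧ (p : ℝ) ≤ X + Y ∧
      LowHigh a b (1 / ε * Real.log X) Z k p} with hS
    have hfin : S.Finite := by
      refine (Set.finite_Iic ⌊X + Y⌋₊).subset ?_
      rintro p ⟨-, -, h, -⟩
      exact Nat.le_floor h
    have hcard : (S.ncard : ℝ) = ((hfin.toFinset.image (Nat.count Nat.Prime)).card : ℝ) := by
      rw [Finset.card_image_of_injOn, ← Set.ncard_eq_toFinset_card S hfin]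
      intro p hp p' hp' h
      rw [Finset.mem_coe, Set.Finite.mem_toFinset] at hp hp'
      exact Nat.count_injective hp.1 hp'.1 h
    rw [hcard]
    have h1 := card_low_le pts_qp (q := qp) (a := a') (b := b') (Z := X) (W := X + Y + Z) ha'0 hab'
      hX0.le hW hl k (hfin.toFinset.image (Nat.count Nat.Prime)) (by
        intro i hi
        rw [Finset.mem_image] at hi
        obtain ⟨p, hp, rfl⟩ := hi
        rw [Set.Finite.mem_toFinset] at hp
        obtain ⟨hp1, hp2, hp3, hp4⟩ := hp
        exact ⟨by rw [qp_count hp1]; exact hp2,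
          lowAt hε hX hlog hZ hYZ hp1 hp2 hp3 hp4⟩)
    rw [cr_eq, cr_eq] at h1
    refine h1.trans ?_
    apply mul_le_mul (pow_le_pow_left₀ (by positivity) hratio k) _ _ (by positivity)
    · apply min_le_min le_rfl
      apply div_le_div_of_nonneg_right _ hl.le
      have e : X + Y + Z - X = Y + Z := by ring
      rw [e]
      apply mul_le_mul_of_nonneg_right _ (by linarith)
      linarith
    · apply le_min hN
      have e : X + Y + Z - X = Y + Z := by ring
      rw [e]
      positivity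
  · -- the real numbers
    have h1 := pts_qp.real_osc_le (a := a) (b := b') (Z := X) (W := X + Y + Z) ha hab'' hX0.le hW
      hl k
    have haL : 0 < a / Real.log X := by positivity
    have hbL : 0 < b' / Real.log X := by positivity
    have hfin : volume {x | X < x ∧
        OscF (cr qp) (a / Real.log X) (b' / Real.log X) (X + Y + Z) k x} ≠ ⊤ := by
      have hsub2 : {x | X < x ∧
          OscF (cr qp) (a / Real.log X) (b' / Real.log X) (X + Y + Z) k x} ⊆
          Ioc X (X + Y + Z) := by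
        rintro x ⟨h2, h3⟩
        exact pts_qp.DK_subset hbL k (pts_qp.oscF_mem haL
          (div_le_div_of_nonneg_right hab'' hl.le) hX0.le k x h2 h3)
      exact ((measure_mono hsub2).trans_lt measure_Ioc_lt_top).ne
    have hsub : {x : ℝ | X < x ∧ x ≤ X + Y ∧ HighLow a b Z k x} ⊆ {x | X < x ∧
        OscF (cr qp) (a / Real.log X) (b' / Real.log X) (X + Y + Z) k x} := by
      rintro x ⟨h2, h3, h4⟩
      exact ⟨h2, osc hε hX hlog hZ hYZ h2 h3 h4⟩
    refine (measureReal_mono hsub hfin).trans (h1.trans ?_)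
    rw [cr_eq, cr_eq]
    have e : X + Y + Z - X = Y + Z := by ring
    rw [e]
    apply mul_le_mul (pow_le_pow_left₀ (by positivity) hratio' k) _ _ (by positivity)
    · apply min_le_min le_rfl
      rw [hb', div_div_eq_mul_div, div_mul_eq_mul_div]
      apply div_le_div_of_nonneg_right _ hb.le
      have h5 : 0 ≤ (primesUpTo (X + Y + Z) - primesUpTo X) * Real.log X := by positivity
      nlinarith
    · apply le_min (by linarith)
      positivity

theorem strict {H : ℕ → ℝ} {k : ℕ} (h : ∀ i < k, H i < H (i + 1)) :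
    ∀ j ≤ k, ∀ i < j, H i < H j := by
  intro j
  induction j with
  | zero => intro _ i hi; omega
  | succ j ih =>
    intro hj i hi
    rcases Nat.eq_or_lt_of_le (Nat.lt_succ_iff.mp hi) with h1 | h1
    · rw [h1]; exact h j (by omega)
    · exact (ih (by omega) i h1).trans (h j (by omega))

theorem density_nonneg {x H : ℝ} (hx : 1 ≤ x) (hH : 0 < H) : 0 ≤ density x H := by
  unfold density
  have h1 := primesUpTo_mono (show x ≤ x + H by linarith)
  have h2 := Real.log_nonneg hx
  have h3 : 0 ≤ primesUpTo (x + H) - primesUpTo x := by linarith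
  positivity

theorem Jumps.alt {s M D Z x : ℝ} (hs : 0 < s) (hD : 0 < D) (hx : 1 ≤ x) {m k : ℕ}
    (hk : (2 * m + 1) * ⌊M / s⌋₊ ≤ k) (hk0 : 0 < k) (h : Jumps (2 * s) M D Z k x) :
    ∃ j ∈ Finset.Icc 1 (⌊M / s⌋₊ - 1), LowHigh (j * s) ((j + 1) * s) D Z m x ∧
      ∃ j' ∈ Finset.Icc 1 (⌊M / s⌋₊ - 1), HighLow (j' * s) ((j' + 1) * s) Z m x := by
  obtain ⟨H, h1, h2, h3, h4, h5⟩ := h
  have hH : ∀ i ≤ k, D ≤ H i := fun i hi => h1.trans (chain h2 i hi)
  have hlast : ∀ i ≤ k, H i ≤ Z := by
    intro i hi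
    rcases Nat.eq_or_lt_of_le hi with h6 | h6
    · rw [h6]; exact h3
    · exact (strict h2 k le_rfl i h6).le.trans h3
  have key := exists_alternating (d := fun i => density x (H i)) hs hk hk0
    (fun i hi => density_nonneg hx (hD.trans_le (hH i hi))) h4 h5
  obtain ⟨j, hj1, hj2, c, hc1, hc2⟩ := key true
  obtain ⟨j', hj1', hj2', c', hc1', hc2'⟩ := key false
  have hsg : ∀ (σ : Bool) (i : ℕ), sg σ (2 * i) = σ ∧ sg σ (2 * i + 1) = !σ := by
    intro σ i
    unfold sg
    have e1 : 2 * i % 2 = 0 := by omega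
    have e2 : (2 * i + 1) % 2 = 1 := by omega
    rw [e1, e2]
    simp
  refine ⟨j, by rw [Finset.mem_Icc]; omega, ?_, j', by rw [Finset.mem_Icc]; omega, ?_⟩
  · refine ⟨fun i => H (c i), hH _ (hc1 0 (by omega)).1, ?_, hlast _ (hc1 _ (by omega)).1, ?_, ?_⟩
    · intro i hi
      exact strict h2 _ (hc1 (i + 1) (by omega)).1 _ (hc2 i (by omega))
    · intro i hi
      exact (hc1 (2 * i) (by omega)).2.1 (hsg true i).1
    · intro i hi
      exact (hc1 (2 * i + 1) (by omega)).2.2 (by rw [(hsg true i).2]; rfl)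
  · refine ⟨fun i => H (c' i), hD.trans_le (hH _ (hc1' 0 (by omega)).1), ?_,
      hlast _ (hc1' _ (by omega)).1, ?_, ?_⟩
    · intro i hi
      exact strict h2 _ (hc1' (i + 1) (by omega)).1 _ (hc2' i (by omega))
    · intro i hi
      exact (hc1' (2 * i) (by omega)).2.2 (hsg false i).1
    · intro i hi
      exact (hc1' (2 * i + 1) (by omega)).2.1 (by rw [(hsg false i).2]; rfl)

/-- **The local density around primes fluctuates rarely, in every interval.** First part: crossings
of a fixed interval `[a, b]`, for the primes `p` and for the real `x` of `(X, X + Y]`. Second part: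
jumps of size at least `η` at densities at most `M`. -/
theorem result :
    (∀ a b δ : ℝ, 0 < a → a < b → 0 < δ → ∃ K : ℝ, 0 < K ∧ ∀ᶠ X : ℝ in atTop, ∀ Y Z : ℝ,
      0 ≤ Y → 0 ≤ Z → Y + Z ≤ X → ∀ k : ℕ,
      (({p : ℕ | p.Prime ∧ X < p ∧ (p : ℝ) ≤ X + Y ∧
          LowHigh a b (K * Real.log X) Z k p}.ncard : ℝ) ≤
        (a / b + δ) ^ k *
          min (primesUpTo (X + Y + Z) - primesUpTo X) ((a + δ) * (Y + Z) / Real.log X)) ∧
      volume.real {x : ℝ | X < x ∧ x ≤ X + Y ∧ HighLow a b Z k x} ≤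
        (a / b + δ) ^ k *
          min (Y + Z)
            ((1 + δ) / b * ((primesUpTo (X + Y + Z) - primesUpTo X) * Real.log X))) ∧
    (∀ η M : ℝ, 0 < η → η ≤ M → ∃ K : ℝ, 0 < K ∧ ∀ᶠ X : ℝ in atTop, ∀ Y Z : ℝ,
      0 ≤ Y → 0 ≤ Z → Y + Z ≤ X → ∀ m : ℕ,
      (({p : ℕ | p.Prime ∧ X < p ∧ (p : ℝ) ≤ X + Y ∧
          Jumps η M (K * Real.log X) Z ((2 * m + 1) * ⌊2 * M / η⌋₊) p}.ncard : ℝ) ≤
        2 * M / η * (1 - η / (4 * M)) ^ m * (primesUpTo (X + Y + Z) - primesUpTo X)) ∧
      ∀ D : ℝ, 0 < D → volume.real {x : ℝ | X < x ∧ x ≤ X + Y ∧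
          Jumps η M D Z ((2 * m + 1) * ⌊2 * M / η⌋₊) x} ≤
        2 * M / η * (1 - η / (4 * M)) ^ m * (Y + Z)) := by
  refine ⟨crossings, ?_⟩
  intro η M hη hηM
  have hM : 0 < M := hη.trans_le hηM
  set s : ℝ := η / 2 with hs
  have hs0 : 0 < s := by positivity
  have e2s : 2 * s = η := by rw [hs]; ring
  have eMs : 2 * M / η = M / s := by rw [hs]; field_simp
  rw [eMs]
  set J : ℕ := ⌊M / s⌋₊ with hJ
  have hJ2 : 2 ≤ J := by
    apply Nat.le_floor
    rw [le_div_iff₀ hs0]
    push_cast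
    linarith
  have hJle : (J : ℝ) ≤ M / s := Nat.floor_le (by positivity)
  set t : Finset ℕ := Finset.Icc 1 (J - 1) with ht
  have hρ : 1 - η / (4 * M) = 1 - s / (2 * M) := by rw [hs]; field_simp; ring
  rw [hρ]
  set ρ : ℝ := 1 - s / (2 * M) with hρd
  have hρ0 : 0 ≤ ρ := by
    have : s / (2 * M) ≤ 1 := by
      rw [div_le_one (by positivity)]; linarith
    linarith
  -- the ratios
  have hratio : ∀ j ∈ t, (j * s : ℝ) / ((j + 1) * s) + s / (2 * M) ≤ ρ := by
    intro j hj
    rw [ht, Finset.mem_Icc] at hj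
    have h1 : (j : ℝ) + 1 ≤ M / s := by
      have : (j + 1 : ℕ) ≤ J := by omega
      have h2 : ((j + 1 : ℕ) : ℝ) ≤ J := by exact_mod_cast this
      push_cast at h2
      linarith
    have h2 : 0 < (j : ℝ) + 1 := by positivity
    have e : (j * s : ℝ) / ((j + 1) * s) = 1 - 1 / (j + 1) := by field_simp; ring
    have h3 : s / M ≤ 1 / (j + 1) := by
      rw [div_le_div_iff₀ hM h2]
      rw [le_div_iff₀ hs0] at h1
      linarith
    have e2 : s / M = s / (2 * M) + s / (2 * M) := by field_simp; ring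
    rw [e, hρd]
    linarith
  have hδ : 0 < s / (2 * M) := by positivity
  have hpair : ∀ j ∈ t, (0 : ℝ) < j * s ∧ (j * s : ℝ) < (j + 1) * s := by
    intro j hj
    rw [ht, Finset.mem_Icc] at hj
    have : (0 : ℝ) < j := by exact_mod_cast (by omega : 0 < j)
    constructor
    · positivity
    · nlinarith
  have hcr : ∀ j ∈ t, ∃ K : ℝ, 0 < K ∧ ∀ᶠ X : ℝ in atTop, ∀ Y Z : ℝ, 0 ≤ Y → 0 ≤ Z →
      Y + Z ≤ X → ∀ k : ℕ,
      (({p : ℕ | p.Prime ∧ X < p ∧ (p : ℝ) ≤ X + Y ∧
          LowHigh (j * s) ((j + 1) * s) (K * Real.log X) Z k p}.ncard : ℝ) ≤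
        (j * s / ((j + 1) * s) + s / (2 * M)) ^ k *
          min (primesUpTo (X + Y + Z) - primesUpTo X)
            ((j * s + s / (2 * M)) * (Y + Z) / Real.log X)) ∧
      volume.real {x : ℝ | X < x ∧ x ≤ X + Y ∧ HighLow (j * s) ((j + 1) * s) Z k x} ≤
        (j * s / ((j + 1) * s) + s / (2 * M)) ^ k *
          min (Y + Z) ((1 + s / (2 * M)) / ((j + 1) * s) *
            ((primesUpTo (X + Y + Z) - primesUpTo X) * Real.log X)) := fun j hj =>
    crossings (j * s) ((j + 1) * s) (s / (2 * M)) (hpair j hj).1 (hpair j hj).2 hδ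
  choose! Kf hK0 hKev using hcr
  refine ⟨1 + ∑ j ∈ t, Kf j, ?_, ?_⟩
  · have : 0 ≤ ∑ j ∈ t, Kf j := Finset.sum_nonneg fun j hj => (hK0 j hj).le
    linarith
  have hKle : ∀ j ∈ t, Kf j ≤ 1 + ∑ j ∈ t, Kf j := by
    intro j hj
    have := Finset.single_le_sum (f := Kf) (fun i hi => (hK0 i hi).le) hj
    linarith
  have hKpos : 0 < 1 + ∑ j ∈ t, Kf j := by
    have : 0 ≤ ∑ j ∈ t, Kf j := Finset.sum_nonneg fun j hj => (hK0 j hj).le
    linarith
  set K : ℝ := 1 + ∑ j ∈ t, Kf j with hK
  have hev : ∀ᶠ X : ℝ in atTop, ∀ j ∈ t, _ := (Filter.eventually_all_finset t).mpr hKev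
  filter_upwards [hev, eventually_gt_atTop 1] with X hX hX1 Y Z hY hZ hYZ m
  have hl : 0 < Real.log X := Real.log_pos hX1
  have hk0 : 0 < (2 * m + 1) * J := by positivity
  have hcardt : (t.card : ℝ) ≤ M / s := by
    rw [ht, Nat.card_Icc]
    have : ((J - 1 + 1 - 1 : ℕ) : ℝ) ≤ J := by exact_mod_cast (by omega : J - 1 + 1 - 1 ≤ J)
    linarith
  have hN : 0 ≤ primesUpTo (X + Y + Z) - primesUpTo X := by
    have := primesUpTo_mono (show X ≤ X + Y + Z by linarith)
    linarith
  constructor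
  · have hsub : {p : ℕ | p.Prime ∧ X < p ∧ (p : ℝ) ≤ X + Y ∧
        Jumps η M (K * Real.log X) Z ((2 * m + 1) * J) p} ⊆
        ⋃ j ∈ t, {p : ℕ | p.Prime ∧ X < p ∧ (p : ℝ) ≤ X + Y ∧
          LowHigh (j * s) ((j + 1) * s) (Kf j * Real.log X) Z m p} := by
      rintro p ⟨h1, h2, h3, h4⟩
      rw [← e2s] at h4
      obtain ⟨j, hj, h5, -⟩ := h4.alt hs0 (mul_pos hKpos hl) (by linarith) (m := m) le_rfl hk0
      rw [mem_iUnion₂]
      refine ⟨j, hj, h1, h2, h3, ?_⟩
      obtain ⟨H, g1, g2⟩ := h5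
      exact ⟨H, (mul_le_mul_of_nonneg_right (hKle j hj) hl.le).trans g1, g2⟩
    have hfin : (⋃ j ∈ t, {p : ℕ | p.Prime ∧ X < p ∧ (p : ℝ) ≤ X + Y ∧
          LowHigh (j * s) ((j + 1) * s) (Kf j * Real.log X) Z m p}).Finite := by
      refine (Set.finite_Iic ⌊X + Y⌋₊).subset ?_
      intro p hp
      rw [mem_iUnion₂] at hp
      obtain ⟨j, -, -, -, h, -⟩ := hp
      exact Nat.le_floor h
    have h1 : (({p : ℕ | p.Prime ∧ X < p ∧ (p : ℝ) ≤ X + Y ∧
        Jumps η M (K * Real.log X) Z ((2 * m + 1) * J) p}.ncard : ℕ) : ℝ) ≤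
        ∑ j ∈ t, (({p : ℕ | p.Prime ∧ X < p ∧ (p : ℝ) ≤ X + Y ∧
          LowHigh (j * s) ((j + 1) * s) (Kf j * Real.log X) Z m p}.ncard : ℕ) : ℝ) := by
      have := (Set.ncard_le_ncard hsub hfin).trans (Finset.set_ncard_biUnion_le _ _)
      exact_mod_cast this
    refine h1.trans ?_
    have h2 : ∀ j ∈ t, (({p : ℕ | p.Prime ∧ X < p ∧ (p : ℝ) ≤ X + Y ∧
          LowHigh (j * s) ((j + 1) * s) (Kf j * Real.log X) Z m p}.ncard : ℕ) : ℝ) ≤
        ρ ^ m * (primesUpTo (X + Y + Z) - primesUpTo X) := by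
      intro j hj
      refine ((hX j hj Y Z hY hZ hYZ m).1).trans ?_
      have hj0 := (hpair j hj).1
      apply mul_le_mul (pow_le_pow_left₀ (by positivity) (hratio j hj) m) (min_le_left _ _)
      · exact le_min hN (by positivity)
      · positivity
    refine (Finset.sum_le_sum h2).trans ?_
    rw [Finset.sum_const, nsmul_eq_mul, mul_assoc]
    exact mul_le_mul_of_nonneg_right hcardt (by positivity)
  · intro D hD
    have hsub : {x : ℝ | X < x ∧ x ≤ X + Y ∧ Jumps η M D Z ((2 * m + 1) * J) x} ⊆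
        ⋃ j ∈ t, {x : ℝ | X < x ∧ x ≤ X + Y ∧ HighLow (j * s) ((j + 1) * s) Z m x} := by
      rintro x ⟨h2, h3, h4⟩
      rw [← e2s] at h4
      obtain ⟨-, -, -, j, hj, h5⟩ := h4.alt hs0 hD (by linarith) (m := m) le_rfl hk0
      rw [mem_iUnion₂]
      exact ⟨j, hj, h2, h3, h5⟩
    have hfin : volume (⋃ j ∈ t, {x : ℝ | X < x ∧ x ≤ X + Y ∧
        HighLow (j * s) ((j + 1) * s) Z m x}) ≠ ⊤ := by
      have h5 : (⋃ j ∈ t, {x : ℝ | X < x ∧ x ≤ X + Y ∧ HighLow (j * s) ((j + 1) * s) Z m x}) ⊆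
          Ioc X (X + Y) := by
        intro x hx
        rw [mem_iUnion₂] at hx
        obtain ⟨j, -, h1, h2, -⟩ := hx
        exact ⟨h1, h2⟩
      exact ((measure_mono h5).trans_lt measure_Ioc_lt_top).ne
    refine (measureReal_mono hsub hfin).trans ((measureReal_biUnion_finset_le _ _).trans ?_)
    have h2 : ∀ j ∈ t, volume.real {x : ℝ | X < x ∧ x ≤ X + Y ∧
        HighLow (j * s) ((j + 1) * s) Z m x} ≤ ρ ^ m * (Y + Z) := by
      intro j hj
      refine ((hX j hj Y Z hY hZ hYZ m).2).trans ?_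
      have hj0 := (hpair j hj).1
      apply mul_le_mul (pow_le_pow_left₀ (by positivity) (hratio j hj) m) (min_le_left _ _)
      · exact le_min (by linarith) (mul_nonneg (by positivity) (mul_nonneg hN hl.le))
      · positivity
    refine (Finset.sum_le_sum h2).trans ?_
    rw [Finset.sum_const, nsmul_eq_mul, mul_assoc]
    exact mul_le_mul_of_nonneg_right hcardt (by positivity)

end Pool.Agent.Results.MP_31d0eb_nt.FluctuationsAroundPrimes
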