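import Pool.Agent.Y851.PT.P9

set_option autoImplicit false

/-!
# Primes in the intervals `(a c - H, a c)`, for two sets of factors, down to `H = λ log X`

Let `θ, λ, ρ, δ > 0` be arbitrarily small and `B ≥ 1`. Let `A` be a set of integers up to `X ^ θ` which contains a positive
proportion `δ` of the integers or of the primes up to `X ^ θ`, let `λ log X ≤ H ≤ X ^ (1 - ρ)`, and let `C` be an ARBITRARY finite
set of real numbers in `(0, X ^ (1 - θ)]` which is not concentrated at the scale `H / X ^ θ`: every interval of this length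
contains at most `B (H / X) |C|` elements of `C`. Then for large `X`:

1. for all but `δ |C|` of the elements `c` of `C` the intervals `(a c - H, a c)` contain the expected number of primes on average
   over `a ∈ A`; and for all but `δ |A|` of the elements `a` of `A` they do so on average over `c ∈ C`;
2. for all but `δ |C| ^ n` of the `n`-tuples `(c_1, ..., c_n)` of elements of `C` a positive proportion `κ` of the `a ∈ A` is such
   that ALL `n` intervals `(a c_j - H, a c_j)` contain a prime; and the same holds with the roles of `A` and `C` exchanged;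
3. if `n ≥ n₀`, then for all but `δ |C| ^ n` of these `n`-tuples at least `(1 - δ) |A|` of the `a ∈ A` are such that at least one
   of the `n` intervals contains a prime; and the same holds with the roles of `A` and `C` exchanged.
-/

namespace Pool.Agent.Results.MP_31d0eb_nt.ProductSetWindows

open Finset Filter

/-- a set of positive integers up to `Q` with at least `δ Q` elements, or a set of primes up to `Q` with at least
`δ Q / log X` elements, where `Q = X ^ θ` -/
def Dense (δ θ X : ℝ) (A : Finset ℕ) : Prop :=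
  (∀ a ∈ A, 1 ≤ a ∧ (a : ℝ) ≤ X ^ θ) ∧ (δ * X ^ θ ≤ A.card ∨ ((∀ a ∈ A, a.Prime) ∧ δ * (X ^ θ / Real.log X) ≤ A.card))

/-- a finite set of real numbers in `(0, X ^ (1 - θ)]` such that every interval of length `H / X ^ θ` contains at most
`B (H / X) |C|` of its elements -/
def Spread (B H θ X : ℝ) (C : Finset ℝ) : Prop :=
  (∀ c ∈ C, 0 < c ∧ c ≤ X ^ (1 - θ)) ∧
    ∀ u : ℝ, ((C.filter (fun c => u ≤ c ∧ c ≤ u + H / X ^ θ)).card : ℝ) ≤ B * (H / X) * C.card

/-- the primes in the open interval `(x - H, x)` -/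
def primesIn (H x : ℝ) : Set ℕ := {p : ℕ | p.Prime ∧ x - H < p ∧ (p : ℝ) < x}

/-- the number of primes in `(x - H, x)`, divided by its expected value `H / log x` -/
noncomputable def density (H x : ℝ) : ℝ := ((primesIn H x).ncard : ℝ) * Real.log x / H

open Classical in
theorem result (θ lam ρ δ B : ℝ) (hθ : 0 < θ) (hlam : 0 < lam) (hρ : 0 < ρ) (hδ : 0 < δ) (hB : 1 ≤ B) :
    ∃ n₀ : ℕ, ∀ n : ℕ, 1 ≤ n → ∃ κ X₀ : ℝ, 0 < κ ∧ ∀ X : ℝ, X₀ ≤ X → ∀ H : ℝ,
    lam * Real.log X ≤ H → H ≤ X ^ (1 - ρ) → ∀ (A : Finset ℕ) (C : Finset ℝ), Dense δ θ X A → Spread B H θ X C →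
    -- averages over one factor
    ((C.filter (fun c => δ * A.card < |∑ a ∈ A, density H (a * c) - A.card|)).card : ℝ) ≤ δ * C.card ∧
    ((A.filter (fun a : ℕ => δ * C.card < |∑ c ∈ C, density H (a * c) - C.card|)).card : ℝ) ≤ δ * A.card ∧
    -- primes in all `n` intervals
    (((Fintype.piFinset (fun _ : Fin n => C)).filter (fun y => ¬
      (κ * A.card ≤ ((A.filter (fun a : ℕ => ∀ j, (primesIn H (a * y j)).Nonempty)).card : ℝ)))).card : ℝ)
        ≤ δ * (C.card : ℝ) ^ n ∧
    (((Fintype.piFinset (fun _ : Fin n => A)).filter (fun y => ¬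
      (κ * C.card ≤ ((C.filter (fun c => ∀ j, (primesIn H (y j * c)).Nonempty)).card : ℝ)))).card : ℝ)
        ≤ δ * (A.card : ℝ) ^ n ∧
    -- a prime in one of the `n` intervals
    (n₀ ≤ n →
      (((Fintype.piFinset (fun _ : Fin n => C)).filter (fun y => ¬
        ((1 - δ) * A.card ≤ ((A.filter (fun a : ℕ => ∃ j, (primesIn H (a * y j)).Nonempty)).card : ℝ)))).card : ℝ)
          ≤ δ * (C.card : ℝ) ^ n ∧
      (((Fintype.piFinset (fun _ : Fin n => A)).filter (fun y => ¬
        ((1 - δ) * C.card ≤ ((C.filter (fun c => ∃ j, (primesIn H (y j * c)).Nonempty)).card : ℝ)))).card : ℝ)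
          ≤ δ * (A.card : ℝ) ^ n) := by
  obtain ⟨n₀, h⟩ := Pool.Agent.Y851.PT.productsH θ lam ρ δ B hθ hlam hρ hδ hB
  refine ⟨n₀, fun n hn => ?_⟩
  obtain ⟨κ, hκ, hev⟩ := h n hn
  obtain ⟨X₀, hX₀⟩ := eventually_atTop.1 hev
  refine ⟨κ, X₀, hκ, fun X hX H hH1 hH2 A C hA hC => ?_⟩
  have hC' : Pool.Agent.Y851.PT.SpH B H θ X C := by
    refine ⟨fun c hc => (hC.1 c hc).1, fun c hc => (hC.1 c hc).2, fun u => ?_⟩
    convert hC.2 u
  obtain ⟨q1, q2, q3, q4, q5⟩ := hX₀ X hX H hH1 hH2 A C hA hC'
  exact ⟨q1, q2, q3, q4, q5⟩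

end Pool.Agent.Results.MP_31d0eb_nt.ProductSetWindows
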